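import Mathlib

/-!
# MP_78a685, section 4(b): the algebra of rigidity on a conic
-/

set_option autoImplicit false

namespace Pool.Agent.H87.FQ

/-- a general polynomial of degree at most two in two variables -/
def qp (e11 e12 e22 h1 h2 f x y : ℝ) : ℝ :=
  e11 * x ^ 2 + 2 * e12 * x * y + e22 * y ^ 2 + h1 * x + h2 * y + f

/-- the coefficients of a polynomial of degree at most two that vanishes identically -/
theorem qp_zero {e11 e12 e22 h1 h2 f : ℝ} (h : ∀ x y, qp e11 e12 e22 h1 h2 f x y = 0) :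
    e11 = 0 ∧ e12 = 0 ∧ e22 = 0 ∧ h1 = 0 ∧ h2 = 0 ∧ f = 0 := by
  have h00 := h 0 0
  have h10 := h 1 0
  have h20 := h (-1) 0
  have h01 := h 0 1
  have h02 := h 0 (-1)
  have h11 := h 1 1
  simp only [qp] at h00 h10 h20 h01 h02 h11
  refine ⟨by linarith, by linarith, by linarith, by linarith, by linarith, by linarith⟩

/-- coefficient comparison for `p (T (x, y)) = mu p (x, y)` -/
theorem coeffs {e11 e12 e22 h1 h2 f m11 m12 m21 m22 c1 c2 mu : ℝ}
    (hp : ∀ x y, qp e11 e12 e22 h1 h2 f (m11 * x + m12 * y + c1) (m21 * x + m22 * y + c2)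
      = mu * qp e11 e12 e22 h1 h2 f x y) :
    m11 ^ 2 * e11 + 2 * m11 * m21 * e12 + m21 ^ 2 * e22 = mu * e11 ∧
    m11 * m12 * e11 + (m11 * m22 + m12 * m21) * e12 + m21 * m22 * e22 = mu * e12 ∧
    m12 ^ 2 * e11 + 2 * m12 * m22 * e12 + m22 ^ 2 * e22 = mu * e22 ∧
    m11 * (2 * (e11 * c1 + e12 * c2) + h1) + m21 * (2 * (e12 * c1 + e22 * c2) + h2) = mu * h1 ∧
    m12 * (2 * (e11 * c1 + e12 * c2) + h1) + m22 * (2 * (e12 * c1 + e22 * c2) + h2) = mu * h2 := by
  have h00 := hp 0 0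
  have h10 := hp 1 0
  have h20 := hp (-1) 0
  have h01 := hp 0 1
  have h02 := hp 0 (-1)
  have h11 := hp 1 1
  simp only [qp] at h00 h10 h20 h01 h02 h11
  refine ⟨by linear_combination (1 / 2) * h10 + (1 / 2) * h20 - h00,
    by linear_combination (1 / 2) * h11 - (1 / 2) * h10 - (1 / 2) * h01 + (1 / 2) * h00,
    by linear_combination (1 / 2) * h01 + (1 / 2) * h02 - h00,
    by linear_combination (1 / 2) * h10 - (1 / 2) * h20,
    by linear_combination (1 / 2) * h01 - (1 / 2) * h02⟩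

/-- the case `mu = 1`, `det M = 1` : `M^T F M = F` with `F = I - M^T M` forces `F = 0` -/
theorem det_one {a b c d : ℝ} (hd : a * d - b * c = 1)
    {F11 F12 F22 : ℝ} (g11 : 1 - (a ^ 2 + c ^ 2) = F11) (g12 : -(a * b + c * d) = F12)
    (g22 : 1 - (b ^ 2 + d ^ 2) = F22)
    (h11 : a ^ 2 * F11 + 2 * a * c * F12 + c ^ 2 * F22 = F11)
    (h12 : a * b * F11 + (a * d + b * c) * F12 + c * d * F22 = F12)
    (h22 : b ^ 2 * F11 + 2 * b * d * F12 + d ^ 2 * F22 = F22) :
    F11 = 0 ∧ F12 = 0 ∧ F22 = 0 := by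
  -- F M = M^{-T} F
  have k1 : (a - d) * F11 + 2 * c * F12 = 0 := by
    linear_combination d * h11 - c * h12 - (F11 * a + F12 * c) * hd
  have k2 : b * F11 + c * F22 = 0 := by
    linear_combination d * h12 - c * h22 - (F11 * b + F12 * d) * hd
  have k3 : (a - d) * F22 - 2 * b * F12 = 0 := by
    linear_combination b * h12 - a * h22 + (F12 * b + F22 * d) * hd
  have k4 : (a + d) * ((a - d) ^ 2 + (b + c) ^ 2) = 0 := by
    subst g11 g12 g22
    linear_combination (-1) * k1 + k3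
  rcases mul_eq_zero.1 k4 with h | h
  · have hda : d = -a := by linarith
    subst hda
    have ha : a = 0 := by
      subst g11 g12 g22
      linear_combination (1 / 4) * k1 - (a / 2) * hd
    subst ha
    have hb : b + c = 0 := by
      subst g11 g12 g22
      linear_combination (1 / 2) * k2 - ((b + c) / 2) * hd
    have hb' : b = -c := by linarith
    subst hb'
    have hc : c ^ 2 = 1 := by linear_combination hd
    subst g11 g12 g22
    refine ⟨by linear_combination (-1) * hc, by ring, by linear_combination (-1) * hc⟩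
  · have h1 : (a - d) ^ 2 = 0 := by nlinarith [sq_nonneg (a - d), sq_nonneg (b + c)]
    have h2 : (b + c) ^ 2 = 0 := by nlinarith [sq_nonneg (a - d), sq_nonneg (b + c)]
    have h3 : a = d := by
      have := pow_eq_zero_iff (two_ne_zero) |>.1 h1
      linarith
    have h4 : b = -c := by
      have := pow_eq_zero_iff (two_ne_zero) |>.1 h2
      linarith
    subst h3 h4
    subst g11 g12 g22
    refine ⟨by linear_combination (-1) * hd, by ring, by linear_combination (-1) * hd⟩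


/-- a degenerate nonzero symmetric matrix is `ep v v^T`, `|v| = 1` -/
theorem rank_one {e11 e12 e22 : ℝ} (hE : e11 ≠ 0 ∨ e12 ≠ 0 ∨ e22 ≠ 0) (hdet : e11 * e22 - e12 ^ 2 = 0) :
    ∃ ep v1 v2 : ℝ, ep ≠ 0 ∧ v1 ^ 2 + v2 ^ 2 = 1 ∧ e11 = ep * v1 ^ 2 ∧ e12 = ep * v1 * v2 ∧ e22 = ep * v2 ^ 2 := by
  by_cases h11 : e11 = 0
  · have h12 : e12 = 0 := by
      have : e12 ^ 2 = 0 := by rw [h11] at hdet; linarith
      exact pow_eq_zero_iff (two_ne_zero) |>.1 this
    have h22 : e22 ≠ 0 := by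
      rcases hE with h | h | h
      · exact absurd h11 h
      · exact absurd h12 h
      · exact h
    exact ⟨e22, 0, 1, h22, by norm_num, by simp [h11], by simp [h12], by simp⟩
  · have hn : 0 < e11 ^ 2 + e12 ^ 2 := by positivity
    set n := Real.sqrt (e11 ^ 2 + e12 ^ 2) with hn'
    have hnn : n ^ 2 = e11 ^ 2 + e12 ^ 2 := Real.sq_sqrt hn.le
    have hnp : 0 < n := Real.sqrt_pos.2 hn
    have hn0 : n ≠ 0 := hnp.ne'
    refine ⟨n ^ 2 / e11, e11 / n, e12 / n, by positivity, ?_, ?_, ?_, ?_⟩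
    · rw [div_pow, div_pow, ← add_div, hnn, div_self hn.ne']
    · field_simp
    · field_simp
    · field_simp
      linear_combination hdet

/-- **Section 4(b), the algebra.** -/
theorem conic_core {e11 e12 e22 h1 h2 f m11 m12 m21 m22 c1 c2 mu la : ℝ}
    (hE : e11 ≠ 0 ∨ e12 ≠ 0 ∨ e22 ≠ 0)
    (hd : 0 < m11 * m22 - m12 * m21)
    (hp : ∀ x y, qp e11 e12 e22 h1 h2 f (m11 * x + m12 * y + c1) (m21 * x + m22 * y + c2)
      = mu * qp e11 e12 e22 h1 h2 f x y)
    (g11 : 1 - (m11 ^ 2 + m21 ^ 2) = la * e11) (g12 : -(m11 * m12 + m21 * m22) = la * e12)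
    (g22 : 1 - (m12 ^ 2 + m22 ^ 2) = la * e22)
    (hline : ∀ x y u v : ℝ, (u ≠ 0 ∨ v ≠ 0) → ∃ s : ℝ, qp e11 e12 e22 h1 h2 f (x + s * u) (y + s * v) ≠ 0)
    (hz : ∃ x y x' y' : ℝ, (x ≠ x' ∨ y ≠ y') ∧ qp e11 e12 e22 h1 h2 f x y = 0 ∧ qp e11 e12 e22 h1 h2 f x' y' = 0) :
    m11 ^ 2 + m21 ^ 2 = 1 ∧ m11 * m12 + m21 * m22 = 0 ∧ m12 ^ 2 + m22 ^ 2 = 1 := by
  obtain ⟨q11, q12, q22, q1, q2⟩ := coeffs hp
  by_cases hla : la = 0
  · subst hla
    refine ⟨by linarith, by linarith, by linarith⟩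
  exfalso
  by_cases hdet : e11 * e22 - e12 ^ 2 = 0
  · -- the degenerate case
    obtain ⟨ep, v1, v2, hep, hv, r11, r12, r22⟩ := rank_one hE hdet
    -- `M^T v . w = 0`
    have hw : (m11 * v1 + m21 * v2) * (-v2) + (m12 * v1 + m22 * v2) * v1 = 0 := by
      have : ep * ((m11 * v1 + m21 * v2) * (-v2) + (m12 * v1 + m22 * v2) * v1) ^ 2 = 0 := by
        rw [r11, r12, r22] at q11 q12 q22
        linear_combination v2 ^ 2 * q11 - 2 * v1 * v2 * q12 + v1 ^ 2 * q22
      have := (mul_eq_zero.1 this).resolve_left hep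
      exact pow_eq_zero_iff (two_ne_zero) |>.1 this
    obtain ⟨s, hs⟩ : ∃ s, s = (m11 * v1 + m21 * v2) * v1 + (m12 * v1 + m22 * v2) * v2 := ⟨_, rfl⟩
    have t1 : m11 * v1 + m21 * v2 = s * v1 := by
      rw [hs]; linear_combination (-(m11 * v1 + m21 * v2)) * hv - v2 * hw
    have t2 : m12 * v1 + m22 * v2 = s * v2 := by
      rw [hs]; linear_combination (-(m12 * v1 + m22 * v2)) * hv + v1 * hw
    have hmu : s ^ 2 = mu := by
      have : ep * s ^ 2 = ep * mu := by
        rw [r11, r12, r22] at q11 q12 q22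
        have e1 : v1 ^ 2 * (ep * (m11 * v1 + m21 * v2) ^ 2) + 2 * v1 * v2 * (ep * (m11 * v1 + m21 * v2) * (m12 * v1 + m22 * v2))
            + v2 ^ 2 * (ep * (m12 * v1 + m22 * v2) ^ 2) = ep * mu * (v1 ^ 2 + v2 ^ 2) ^ 2 := by
          linear_combination v1 ^ 2 * q11 + 2 * v1 * v2 * q12 + v2 ^ 2 * q22
        rw [t1, t2, hv] at e1
        have e2 : ep * s ^ 2 * (v1 ^ 2 + v2 ^ 2) ^ 2 = ep * mu := by linear_combination e1
        rw [hv] at e2
        linear_combination e2
      exact mul_left_cancel₀ hep this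
    -- `Mw = (k1, k2)`
    obtain ⟨k1, hk1⟩ : ∃ k1, k1 = -(m11 * v2) + m12 * v1 := ⟨_, rfl⟩
    obtain ⟨k2, hk2⟩ : ∃ k2, k2 = -(m21 * v2) + m22 * v1 := ⟨_, rfl⟩
    have hkn : k1 ^ 2 + k2 ^ 2 = 1 := by
      rw [hk1, hk2]
      rw [r11] at g11
      rw [r12] at g12
      rw [r22] at g22
      linear_combination (-v2 ^ 2) * g11 + 2 * v1 * v2 * g12 - v1 ^ 2 * g22 + hv
    have hkv : k1 * v1 + k2 * v2 = 0 := by
      rw [hk1, hk2]; linear_combination (-v2) * t1 + v1 * t2
    obtain ⟨ka, hka⟩ : ∃ ka, ka = -(k1 * v2) + k2 * v1 := ⟨_, rfl⟩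
    have u1 : k1 = -(ka * v2) := by
      rw [hka]; linear_combination (-k1) * hv + v1 * hkv
    have u2 : k2 = ka * v1 := by
      rw [hka]; linear_combination (-k2) * hv + v2 * hkv
    have hka2 : ka ^ 2 = 1 := by
      rw [u1, u2] at hkn
      linear_combination hkn - ka ^ 2 * hv
    -- the linear coefficient
    have hlin : ka * (-(h1 * v2) + h2 * v1) = mu * (-(h1 * v2) + h2 * v1) := by
      have e1 : k1 * (2 * (e11 * c1 + e12 * c2) + h1) + k2 * (2 * (e12 * c1 + e22 * c2) + h2)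
          = mu * (-(h1 * v2) + h2 * v1) := by
        rw [hk1, hk2]
        linear_combination (-v2) * q1 + v1 * q2
      rw [u1, u2, r11, r12, r22] at e1
      linear_combination e1
    have hne : -(h1 * v2) + h2 * v1 ≠ 0 := by
      intro h0
      obtain ⟨x, y, -, -, -, hxy, -⟩ := hz
      have hvv : -v2 ≠ 0 ∨ v1 ≠ 0 := by
        by_contra hcon
        push Not at hcon
        obtain ⟨ha, hb⟩ := hcon
        have ha' : v2 = 0 := by linarith
        rw [ha', hb] at hv
        norm_num at hv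
      obtain ⟨t, ht⟩ := hline x y (-v2) v1 hvv
      apply ht
      rw [r11, r12, r22] at hxy ⊢
      simp only [qp] at hxy ⊢
      linear_combination hxy + t * h0
    have hkm : ka = mu := mul_right_cancel₀ hne hlin
    have hmu1 : mu = 1 := by
      have h1 : mu ^ 2 = 1 := by rw [← hkm]; exact hka2
      have h2 : 0 ≤ mu := by rw [← hmu]; positivity
      nlinarith
    -- `|Mv|^2 = 1 - la ep`, `Mv = s v`
    have hort : (m11 * v1 + m12 * v2) * k1 + (m21 * v1 + m22 * v2) * k2 = 0 := by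
      rw [hk1, hk2]
      rw [r11] at g11
      rw [r12] at g12
      rw [r22] at g22
      linear_combination (v1 * v2) * g11 + (v2 ^ 2 - v1 ^ 2) * g12 - v1 * v2 * g22
    have hort' : (m11 * v1 + m12 * v2) * (-v2) + (m21 * v1 + m22 * v2) * v1 = 0 := by
      rw [u1, u2] at hort
      have : ka * ((m11 * v1 + m12 * v2) * (-v2) + (m21 * v1 + m22 * v2) * v1) = 0 := by
        linear_combination hort
      have hk0 : ka ≠ 0 := by
        intro h; rw [h] at hka2; norm_num at hka2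
      exact (mul_eq_zero.1 this).resolve_left hk0
    have hsv : (m11 * v1 + m12 * v2) * v1 + (m21 * v1 + m22 * v2) * v2 = s := by
      rw [hs]; ring
    have w1 : m11 * v1 + m12 * v2 = s * v1 := by
      rw [← hsv]; linear_combination (-(m11 * v1 + m12 * v2)) * hv - v2 * hort'
    have w2 : m21 * v1 + m22 * v2 = s * v2 := by
      rw [← hsv]; linear_combination (-(m21 * v1 + m22 * v2)) * hv + v1 * hort'
    have hn1 : (m11 * v1 + m12 * v2) ^ 2 + (m21 * v1 + m22 * v2) ^ 2 = 1 - la * ep := by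
      rw [r11] at g11
      rw [r12] at g12
      rw [r22] at g22
      linear_combination (-v1 ^ 2) * g11 - 2 * v1 * v2 * g12 - v2 ^ 2 * g22 + (1 - la * ep * (v1 ^ 2 + v2 ^ 2 + 1)) * hv
    rw [w1, w2] at hn1
    have : la * ep = 0 := by
      have : s ^ 2 * (v1 ^ 2 + v2 ^ 2) = 1 - la * ep := by linear_combination hn1
      rw [hv, hmu, hmu1] at this
      linarith
    rcases mul_eq_zero.1 this with h | h
    · exact hla h
    · exact hep h
  · -- the nondegenerate case
    obtain ⟨z1, hz1⟩ : ∃ z1, z1 = (-(h1 * e22) + h2 * e12) / (2 * (e11 * e22 - e12 ^ 2)) := ⟨_, rfl⟩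
    obtain ⟨z2, hz2⟩ : ∃ z2, z2 = (-(h2 * e11) + h1 * e12) / (2 * (e11 * e22 - e12 ^ 2)) := ⟨_, rfl⟩
    have hD2 : 2 * (e11 * e22 - e12 ^ 2) ≠ 0 := mul_ne_zero two_ne_zero hdet
    have y1 : z1 * (2 * (e11 * e22 - e12 ^ 2)) = -(h1 * e22) + h2 * e12 := by
      rw [hz1, div_mul_cancel₀ _ hD2]
    have y2 : z2 * (2 * (e11 * e22 - e12 ^ 2)) = -(h2 * e11) + h1 * e12 := by
      rw [hz2, div_mul_cancel₀ _ hD2]
    have c11 : 2 * (e11 * z1 + e12 * z2) + h1 = 0 := by
      have : (2 * (e11 * e22 - e12 ^ 2)) * (2 * (e11 * z1 + e12 * z2) + h1) = 0 := by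
        linear_combination 2 * e11 * y1 + 2 * e12 * y2
      exact (mul_eq_zero.1 this).resolve_left hD2
    have c22 : 2 * (e12 * z1 + e22 * z2) + h2 = 0 := by
      have : (2 * (e11 * e22 - e12 ^ 2)) * (2 * (e12 * z1 + e22 * z2) + h2) = 0 := by
        linear_combination 2 * e12 * y1 + 2 * e22 * y2
      exact (mul_eq_zero.1 this).resolve_left hD2
    have hform : ∀ x y, qp e11 e12 e22 h1 h2 f (z1 + x) (z2 + y)
        = e11 * x ^ 2 + 2 * e12 * x * y + e22 * y ^ 2 + qp e11 e12 e22 h1 h2 f z1 z2 := by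
      intro x y
      simp only [qp]
      linear_combination x * c11 + y * c22
    have hf : qp e11 e12 e22 h1 h2 f z1 z2 ≠ 0 := by
      intro h0
      obtain ⟨x, y, x', y', hne, hxy, hxy'⟩ := hz
      -- one of the two points is not `z`
      obtain ⟨a, b, hab, hq⟩ : ∃ a b : ℝ, (a ≠ 0 ∨ b ≠ 0) ∧ qp e11 e12 e22 h1 h2 f (z1 + a) (z2 + b) = 0 := by
        by_cases hxz : x = z1 ∧ y = z2
        · refine ⟨x' - z1, y' - z2, ?_, ?_⟩
          · rcases hne with h | h
            · left; intro h'; apply h; rw [hxz.1]; linarith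
            · right; intro h'; apply h; rw [hxz.2]; linarith
          · rw [show z1 + (x' - z1) = x' by ring, show z2 + (y' - z2) = y' by ring]; exact hxy'
        · refine ⟨x - z1, y - z2, ?_, ?_⟩
          · by_contra hcon
            push Not at hcon
            apply hxz
            exact ⟨by linarith [hcon.1], by linarith [hcon.2]⟩
          · rw [show z1 + (x - z1) = x by ring, show z2 + (y - z2) = y by ring]; exact hxy
      obtain ⟨t, ht⟩ := hline z1 z2 a b hab
      apply ht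
      rw [hform, h0] at hq ⊢
      linear_combination t ^ 2 * hq
    -- `T z = z`
    have hdet0 : m11 * m22 - m12 * m21 ≠ 0 := hd.ne'
    obtain ⟨w1, hw1⟩ : ∃ w1, w1 = m11 * z1 + m12 * z2 + c1 := ⟨_, rfl⟩
    obtain ⟨w2, hw2⟩ : ∃ w2, w2 = m21 * z1 + m22 * z2 + c2 := ⟨_, rfl⟩
    have a1 : m11 * (2 * (e11 * w1 + e12 * w2) + h1) + m21 * (2 * (e12 * w1 + e22 * w2) + h2) = 0 := by
      rw [hw1, hw2]
      linear_combination 2 * z1 * q11 + 2 * z2 * q12 + q1 + mu * c11
    have a2 : m12 * (2 * (e11 * w1 + e12 * w2) + h1) + m22 * (2 * (e12 * w1 + e22 * w2) + h2) = 0 := by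
      rw [hw1, hw2]
      linear_combination 2 * z1 * q12 + 2 * z2 * q22 + q2 + mu * c22
    have b1 : 2 * (e11 * w1 + e12 * w2) + h1 = 0 := by
      have : (m11 * m22 - m12 * m21) * (2 * (e11 * w1 + e12 * w2) + h1) = 0 := by
        linear_combination m22 * a1 - m21 * a2
      exact (mul_eq_zero.1 this).resolve_left hdet0
    have b2 : 2 * (e12 * w1 + e22 * w2) + h2 = 0 := by
      have : (m11 * m22 - m12 * m21) * (2 * (e12 * w1 + e22 * w2) + h2) = 0 := by
        linear_combination m11 * a2 - m12 * a1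
      exact (mul_eq_zero.1 this).resolve_left hdet0
    have d1 : w1 = z1 := by
      have : (e11 * e22 - e12 ^ 2) * (w1 - z1) = 0 := by
        linear_combination (1 / 2) * e22 * (b1 - c11) - (1 / 2) * e12 * (b2 - c22)
      have := (mul_eq_zero.1 this).resolve_left hdet
      linarith
    have d2 : w2 = z2 := by
      have : (e11 * e22 - e12 ^ 2) * (w2 - z2) = 0 := by
        linear_combination (1 / 2) * e11 * (b2 - c22) - (1 / 2) * e12 * (b1 - c11)
      have := (mul_eq_zero.1 this).resolve_left hdet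
      linarith
    have hmu : mu = 1 := by
      have := hp z1 z2
      rw [← hw1, ← hw2, d1, d2] at this
      have h2 : (mu - 1) * qp e11 e12 e22 h1 h2 f z1 z2 = 0 := by linear_combination (-1 : ℝ) * this
      have := (mul_eq_zero.1 h2).resolve_right hf
      linarith
    have hone : m11 * m22 - m12 * m21 = 1 := by
      have h1 : (m11 * m22 - m12 * m21) ^ 2 * (e11 * e22 - e12 ^ 2) = 1 * (e11 * e22 - e12 ^ 2) := by
        rw [hmu] at q11 q12 q22
        have e1 : (m11 ^ 2 * e11 + 2 * m11 * m21 * e12 + m21 ^ 2 * e22) * (m12 ^ 2 * e11 + 2 * m12 * m22 * e12 + m22 ^ 2 * e22)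
          - (m11 * m12 * e11 + (m11 * m22 + m12 * m21) * e12 + m21 * m22 * e22) ^ 2 = e11 * e22 - e12 ^ 2 := by
          rw [q11, q12, q22]; ring
        linear_combination e1
      have h2 : (m11 * m22 - m12 * m21) ^ 2 = 1 := mul_right_cancel₀ hdet h1
      nlinarith
    rw [hmu] at q11 q12 q22
    obtain ⟨f1, f2, f3⟩ := det_one hone g11 g12 g22
      (by linear_combination la * q11) (by linear_combination la * q12) (by linear_combination la * q22)
    rcases hE with h | h | h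
    · exact (mul_ne_zero hla h) f1
    · exact (mul_ne_zero hla h) f2
    · exact (mul_ne_zero hla h) f3

end Pool.Agent.H87.FQ
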